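import Pool.Agent.helper55.MC.C2of
import Pool.Agent.helper99.MC.C1
import Pool.Agent.helper25.MC.B2
import Pool.Agent.helper13.MC.K
import Pool.Agent.helper54.MC.V
import Pool.Agent.helper13.MC.D1
import Pool.Agent.helper58.MC.Dof

/-! # Project MC: assembly of the representation side -/

namespace Pool.Agent.helper76.MC

open Finset Pool.Agent.helper34.DH Pool.Agent.helper76.FV Pool.Agent.helper76.LP
open Pool.Agent.helper76.UR
open Matrix (SpecialLinearGroup)

lemma CD_sum_filter (s : Multiset QZ) [DecidablePred fun x : QZ => x ≠ 0] :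
    (s.filter fun x => x ≠ 0).sum = s.sum := by
  induction s using Multiset.induction_on with
  | empty => rw [Multiset.filter_zero]
  | cons a s ih =>
    by_cases h : a = 0
    · have hf : (a ::ₘ s).filter (fun x => x ≠ 0) = s.filter (fun x => x ≠ 0) :=
        Multiset.filter_cons_of_neg (p := fun x : QZ => x ≠ 0) s (by simpa using h)
      rw [hf, ih, Multiset.sum_cons, h, zero_add]
    · have hf : (a ::ₘ s).filter (fun x => x ≠ 0) = a ::ₘ s.filter (fun x => x ≠ 0) :=
        Multiset.filter_cons_of_pos (p := fun x : QZ => x ≠ 0) s h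
      rw [hf, Multiset.sum_cons, Multiset.sum_cons, ih]

lemma CD_emb_rho (s : Multiset QZ) (h : ∀ x ∈ s, x ≠ 0) :
    mk (helper34.DH.emb s) = (s.map Pool.Agent.helper34.DH.ρ).sum := by
  induction s using Multiset.induction_on with
  | empty => simp
  | cons a s ih =>
    rw [Pool.Agent.helper34.DH.emb_cons, _root_.map_add, Multiset.map_cons, Multiset.sum_cons,
      ih fun x hx => h x (Multiset.mem_cons_of_mem hx), rho_of_ne (h a (Multiset.mem_cons_self a s))]

theorem CD_B0 : C2_B0 := by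
  classical
  intro N hN V _ _ ϱ h1 s t u hs ht hu
  refine ⟨_, B2_of hN ϱ h1 hs ht hu, ?_, ?_⟩
  · rw [CD_emb_rho _ fun x hx => (Multiset.mem_filter.1 hx).2, C2_filter_rho, Multiset.map_add,
      Multiset.map_add, Multiset.sum_add, Multiset.sum_add]
  · rw [CD_sum_filter, Multiset.sum_add, Multiset.sum_add]

theorem three_mem : (3 : ℤ) • F (1 / 3) ∈ MG :=
  three_mem_of CD_B0 isCong_sum rep_six

theorem cf_mem (m : ℕ) [NeZero m] (e : ZMod m → ℕ) (h : CF m 1 e) :
    LP.cls m (fun x => (e x : ℤ)) ∈ MG' :=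
  cf_mem_of CD_B0 isCong_sum m e h

theorem pat_cf (m : ℕ) [NeZero m] (four : Bool) (h4 : four = true → 4 ∣ m) (R : List ℕ)
    (hR : ∀ p ∈ R, p.Prime ∧ p % 4 = 3 ∧ p ∣ m) :
    CF m ((-1 : ℂ) ^ (R.length + (if four then 1 else 0))) (pat m four R) :=
  pat_cf_of congRep_tensor congRep_infl congRep_zero rep_vp rep_four m four h4 R hR

theorem final_mem (m : ℕ) [NeZero m] (c : ZMod m → ℤ) (hT : TateF (anti c))
    (h : LP.cls m c ∈ MG') : LP.cls m c ∈ EP IsCongLef := by
  refine final_mem_of (fun c hc => isCong_sum hc) (fun m _ c => D1_mem_MG three_mem m c) ?_ m c hT h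
  intro q hq
  obtain ⟨c0, h1, j, h2⟩ := D1_exists hq
  exact ⟨c0, j, h1, h2⟩

end Pool.Agent.helper76.MC
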