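import Pool.Agent.helper76.UR.Fin

/-! # Project MC (congruence representations): definitions -/

namespace Pool.Agent.helper76.MC

open Finset Pool.Agent.helper34.DH Pool.Agent.helper76.FV Pool.Agent.helper76.LP
open Pool.Agent.helper76.UR
open Matrix (SpecialLinearGroup)

/-- the character `x ↦ exp (2 π i x)` of `ℚ/ℤ` -/
noncomputable def ez : QZ → ℂ :=
  Quotient.lift (fun r : ℚ => Complex.exp (2 * Real.pi * Complex.I * (r : ℂ))) (by
    intro a b h
    have h1 : -a + b ∈ AddSubgroup.zmultiples (1 : ℚ) := QuotientAddGroup.leftRel_apply.1 h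
    obtain ⟨n, hn⟩ := AddSubgroup.mem_zmultiples_iff.1 h1
    have h2 : b = a + n := by
      rw [zsmul_eq_mul, mul_one] at hn
      linarith
    simp only [h2]
    push_cast
    rw [mul_add, Complex.exp_add]
    have h3 : Complex.exp (2 * Real.pi * Complex.I * (n : ℂ)) = 1 := by
      rw [show 2 * Real.pi * Complex.I * (n : ℂ) = (n : ℂ) * (2 * Real.pi * Complex.I) by ring]
      exact Complex.exp_int_mul_two_pi_mul_I n
    rw [h3, mul_one])

/-- the linear map `A` has a basis of eigenvectors with eigenvalues `exp (2 π i x)`, where `x` runs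
through the multiset `s` -/
def Exps {V : Type} [AddCommGroup V] [Module ℂ V] (A : V →ₗ[ℂ] V) (s : Multiset QZ) : Prop :=
  ∃ (n : ℕ) (b : Module.Basis (Fin n) ℂ V) (x : Fin n → QZ),
    (∀ i, A (b i) = ez (x i) • b i) ∧ s = (Finset.univ : Finset (Fin n)).val.map x

/-- the elements `S`, `T` and `U = (S T)⁻¹` of `SL₂(ℤ/N)` -/
def mS (N : ℕ) : SpecialLinearGroup (Fin 2) (ZMod N) :=
  ⟨!![0, -1; 1, 0], by simp [Matrix.det_fin_two]⟩
@[inherit_doc mS] def mT (N : ℕ) : SpecialLinearGroup (Fin 2) (ZMod N) :=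
  ⟨!![1, 1; 0, 1], by simp [Matrix.det_fin_two]⟩
@[inherit_doc mS] def mU (N : ℕ) : SpecialLinearGroup (Fin 2) (ZMod N) := (mS N * mT N)⁻¹

open Classical in
/-- `c` is the multiset of the nonzero exponents of `S`, `T` and `U` in a representation of
`SL₂(ℤ/N)` in which `-1` acts as the identity -/
def IsCong (c : Multiset QZ) : Prop :=
  ∃ (N n : ℕ) (ϱ : Representation ℂ (SpecialLinearGroup (Fin 2) (ZMod N)) (Fin n → ℂ))
    (s t u : Multiset QZ), 0 < N ∧ ϱ (-1) = 1 ∧ Exps (ϱ (mS N)) s ∧ Exps (ϱ (mT N)) t ∧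
      Exps (ϱ (mU N)) u ∧ c = (s + t + u).filter (fun x => x ≠ 0)

/-- Lefschetz classes of congruence type -/
def IsCongLef (u : Multiset QZ) : Prop :=
  IsCong u ∧ ∃ (N r : ℕ) (z : Fin (2 * r + 2) → ZMod N), 0 < N ∧ IsTateFermat N r z ∧ u = pts z

/-! ### internal notions -/

/-- a representation of `SL₂(ℤ/N)` with `-1` acting as `σ` and the exponents `t` of `T` -/
def CongRep (N : ℕ) (σ : ℂ) (t : Multiset QZ) : Prop :=
  ∃ (V : Type) (_ : AddCommGroup V) (_ : Module ℂ V)
    (ϱ : Representation ℂ (SpecialLinearGroup (Fin 2) (ZMod N)) V),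
    ϱ (-1) = σ • (1 : V →ₗ[ℂ] V) ∧ Exps (ϱ (mT N)) t

/-- the subgroup of `Qt` generated by the classes of the exponents of congruence representations
and the class of `1/2` -/
noncomputable def MG : AddSubgroup Qt :=
  AddSubgroup.closure {q | (∃ c, IsCong c ∧ q = mk (helper34.DH.emb c)) ∨ q = hh}

/-- the same with the class of `1/3` -/
noncomputable def MG' : AddSubgroup Qt := MG ⊔ AddSubgroup.zmultiples (F (1 / 3))

/-- multisets from multiplicity functions -/
noncomputable def mset {m : ℕ} [NeZero m] (e : ZMod m → ℕ) : Multiset QZ := ∑ x, e x • {pt x}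

/-- multiplicity functions of the exponents of `T` -/
def CF (m : ℕ) [NeZero m] (σ : ℂ) (e : ZMod m → ℕ) : Prop := CongRep m σ (mset e)

/-- convolution -/
def conv {m : ℕ} [NeZero m] (e e' : ZMod m → ℕ) (x : ZMod m) : ℕ := ∑ y, e y * e' (x - y)

/-- exponents of half of the principal series of `SL₂(𝔽_p)`: `0` and the `b / p` with `b` a
nonzero square modulo `p` -/
def vp (m p : ℕ) [NeZero m] (x : ZMod m) : ℕ :=
  (if x = 0 then 1 else 0) + ((Finset.range p).filter (fun k : ℕ =>
    k ≠ 0 ∧ (∃ c ∈ Finset.range p, (c * c) % p = k) ∧ ((k * (m / p) : ℕ) : ZMod m) = x)).card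

/-- the exponent `1/4` -/
def kp (m : ℕ) [NeZero m] (x : ZMod m) : ℕ := if x = LP.emb 4 m 1 then 1 else 0

/-- the exponents of tensor products of the representations above -/
def pat (m : ℕ) [NeZero m] (four : Bool) : List ℕ → ZMod m → ℕ
  | [] => if four then kp m else fun x => if x = 0 then 1 else 0
  | p :: R => conv (vp m p) (pat m four R)

/-- the unit `1 + 4 (odd part of m)` -/
def IsStar (m : ℕ) (t : (ZMod m)ˣ) : Prop := (t : ZMod m) = ((1 + 4 * ordCompl[2] m : ℕ) : ZMod m)

/-- functions which change by Tate functions under squares of units and the unit above -/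
def SqT (m : ℕ) [NeZero m] (c : ZMod m → ℤ) : Prop :=
  ∀ t : (ZMod m)ˣ, (IsSquare t ∨ IsStar m t) → TateF (anti (fun x => c ((t : ZMod m) * x) - c x))

/-- invariance under squares of units and the unit above -/
def Inv {A : Type*} (m : ℕ) (c : ZMod m → A) : Prop :=
  ∀ t : (ZMod m)ˣ, (IsSquare t ∨ IsStar m t) → ∀ x, c ((t : ZMod m) * x) = c x

/-- the component of the character of conductor `4` -/
def G4 (m : ℕ) [NeZero m] (c : ZMod m → ℤ) : ℤ :=
  ∑ t : (ZMod m)ˣ, ZMod.χ₄ (((t : ZMod m).val : ℕ) : ZMod 4) *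
    ∑ x, anti c x * saw m ((t : ZMod m) * x)

/-- the functions treated by the induction -/
def Pre (m : ℕ) [NeZero m] (c : ZMod m → ℤ) : Prop := SqT m c ∧ (4 ∣ m → G4 m c = 0)

section MD
variable {G ι : Type*} [CommGroup G]

/-- sum of the values at the products of the `ν i`, `i` in a sublist -/
def par (ν : ι → G) : List ι → (G → ℤ) → G → ℤ
  | [], f => f
  | i :: L, f => par ν L (fun x => f (ν i * x) + f x)

/-- the alternating sum -/
def mdf (ν : ι → G) : List ι → (G → ℤ) → G → ℤ
  | [], f => f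
  | i :: L, f => mdf ν L (fun x => f (ν i * x) - f x)

end MD

/-- squarefree apart from a factor `4` -/
def Lform (D : ℕ) : Prop := D % 4 ≠ 2 ∧ (∀ p, p.Prime → Odd p → ¬ p ^ 2 ∣ D) ∧ ¬ 8 ∣ D

/-- all odd prime factors are `3` modulo `4` -/
def Three (m : ℕ) : Prop := ∀ p : ℕ, p.Prime → p ∣ m → p = 2 ∨ p % 4 = 3

end Pool.Agent.helper76.MC
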