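import Pool.Agent.helper76.MC.I

/-! # Project MC: the theorem for degrees whose odd prime factors are `3` modulo `4` -/

namespace Pool.Agent.helper76.MC

open Finset Pool.Agent.helper34.DH Pool.Agent.helper76.FV Pool.Agent.helper76.LP
open Pool.Agent.helper76.UR
open Matrix (SpecialLinearGroup)

theorem tateGen_cong' : TateGen IsCongLef := fun _ h => h.2

theorem tateM_three (m : ℕ) (hm : 0 < m) (h3 : Three m) (d : ℕ) (a : Fin (2 * d) → ZMod m) :
    TateM m a ↔ (∀ i, a i ≠ 0) ∧ EquivMod IsCongLef (pts a) 0 := by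
  have : NeZero m := ⟨hm.ne'⟩
  constructor
  · intro hT
    have h1 : TateF (anti (cnt a)) := tateF_anti m a hT
    exact ⟨hT.1, equivMod_of_cls tateGen_cong' m d a hT.1
      (final_mem m _ h1 (main_mod' m h3 _ (pre_tate m _ h1)))⟩
  · rintro ⟨h0, hs⟩
    exact tateM_of_equivMod tateGen_cong' m hm _ a h0 hs

theorem tate_three' (m : ℕ) (hm : 0 < m) (h3 : Three m) (d : ℕ) {s : ℕ}
    (π : Fin (2 * d) → Fin s) (a : Fin (2 * d) → ZMod m) :
    IsTateChar m π a ↔ (∀ i, a i ≠ 0) ∧ BlockZero π a ∧ EquivMod IsCongLef (pts a) 0 := by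
  rw [isTateChar_iff m hm]
  constructor
  · rintro ⟨hb, ht⟩
    obtain ⟨h1, h2⟩ := (tateM_three m hm h3 d a).1 ht
    exact ⟨h1, hb, h2⟩
  · rintro ⟨h1, hb, h2⟩
    exact ⟨hb, (tateM_three m hm h3 d a).2 ⟨h1, h2⟩⟩

end Pool.Agent.helper76.MC
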