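import Pool.Agent.helper76.MC.Defs
import Pool.Agent.helper97.FQ.S0

/-! # Project MC, module S1 -/

namespace Pool.Agent.helper76.MC

open Finset Pool.Agent.helper34.DH Pool.Agent.helper76.FV Pool.Agent.helper76.LP
open Pool.Agent.helper76.UR

theorem step1 (m : ℕ) [NeZero m] (D : ℕ) [NeZero D] (hD : D ∣ m) (c : ZMod m → ℤ)
    (hmax : ∀ x, anti c x ≠ 0 → addOrderOf x ≤ D)
    (hdec : NDec D (fun z => anti c (LP.emb D m (z : ZMod D)))) :
    ∃ c' : ZMod m → ℤ, TateF (anti fun x => c x - c' x) ∧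
      (∀ x, anti c' x ≠ 0 → addOrderOf x < D) ∧ ∃ j : ℤ, LP.cls m c' = LP.cls m c + j • hh := by
  classical
  obtain ⟨N, hN1, hN2, hN3⟩ := hdec
  have hD0 : 0 < D := Nat.pos_of_ne_zero (NeZero.ne D)
  have key : ∀ p : ℕ, ∃ g q : ZMod m → ℤ, p ∈ D.primeFactors →
      (∀ z : (ZMod D)ˣ, anti g (LP.emb D m (z : ZMod D)) = N p z) ∧
      (∀ x, addOrderOf x ≠ D → anti g x = - q x) ∧ (∀ x, q x ≠ 0 → addOrderOf x = D / p) ∧
      TateF (anti g) ∧ ∃ j : ℤ, LP.cls m g = j • hh := by
    intro p
    by_cases hp : p ∈ D.primeFactors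
    · have hpp := Nat.prime_of_mem_primeFactors hp
      have hpd := Nat.dvd_of_mem_primeFactors hp
      have : NeZero (D / p) := ⟨(Nat.div_pos (Nat.le_of_dvd hD0 hpd) hpp.pos).ne'⟩
      obtain ⟨g, q, h⟩ := SP_one m D (D / p) p hD (Nat.div_mul_cancel hpd) hpp (N p) (hN1 p hp)
        (hN3 p hp)
      exact ⟨g, q, fun _ => ⟨h.1, h.2.1, h.2.2.1, h.2.2.2.2⟩⟩
    · exact ⟨0, 0, fun h => absurd h hp⟩
  choose G Q hGQ using key
  have hanti : ∀ x, anti (fun x => c x - ∑ p ∈ D.primeFactors, G p x) x =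
      anti c x - ∑ p ∈ D.primeFactors, anti (G p) x := SP_sum_anti _ _ _
  have hfull : ∀ x, addOrderOf x = D →
      anti (fun x => c x - ∑ p ∈ D.primeFactors, G p x) x = 0 := by
    intro x hx
    obtain ⟨z, rfl⟩ := exists_emb x hx
    have h := hN2 z
    simp only at h
    rw [hanti, h, sub_eq_zero]
    exact Finset.sum_congr rfl fun p hp => ((hGQ p hp).1 z).symm
  have hrest : ∀ x, addOrderOf x ≠ D →
      anti (fun x => c x - ∑ p ∈ D.primeFactors, G p x) x =
        anti c x + ∑ p ∈ D.primeFactors, Q p x := by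
    intro x hx
    rw [hanti, Finset.sum_congr rfl fun p hp => (hGQ p hp).2.1 x hx, Finset.sum_neg_distrib]
    ring
  refine ⟨fun x => c x - ∑ p ∈ D.primeFactors, G p x, ?_, ?_, ?_⟩
  · have h1 : ∀ x, anti (fun x => c x - (c x - ∑ p ∈ D.primeFactors, G p x)) x =
        ∑ p ∈ D.primeFactors, anti (G p) x := by
      intro x
      have h2 := hanti x
      unfold anti at h2 ⊢
      linarith
    intro t
    simp_rw [h1, Finset.sum_mul]
    rw [Finset.sum_comm]
    exact Finset.sum_eq_zero fun p hp => (hGQ p hp).2.2.2.1 t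
  · intro x hx
    have hne : addOrderOf x ≠ D := fun h => hx (hfull x h)
    rw [hrest x hne] at hx
    by_cases h1 : anti c x = 0
    · rw [h1, zero_add] at hx
      obtain ⟨p, hp, hpx⟩ := Finset.exists_ne_zero_of_sum_ne_zero hx
      rw [(hGQ p hp).2.2.1 x hpx]
      exact Nat.div_lt_self hD0 (Nat.prime_of_mem_primeFactors hp).one_lt
    · exact lt_of_le_of_ne (hmax x h1) hne
  · have h1 : ∀ p : ℕ, ∃ j : ℤ, p ∈ D.primeFactors → LP.cls m (G p) = j • hh := by
      intro p
      by_cases hp : p ∈ D.primeFactors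
      · obtain ⟨j, hj⟩ := (hGQ p hp).2.2.2.2
        exact ⟨j, fun _ => hj⟩
      · exact ⟨0, fun h => absurd h hp⟩
    choose j hj using h1
    refine ⟨- ∑ p ∈ D.primeFactors, j p, ?_⟩
    have h2 : LP.cls m (fun x => c x - ∑ p ∈ D.primeFactors, G p x) =
        LP.cls m c - ∑ p ∈ D.primeFactors, LP.cls m (G p) := by
      unfold LP.cls
      simp_rw [sub_smul, Finset.sum_smul, Finset.sum_sub_distrib]
      rw [Finset.sum_comm]
    rw [h2, Finset.sum_congr rfl fun p hp => hj p hp, ← Finset.sum_smul, neg_smul, sub_eq_add_neg]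

lemma S1_tate_mul (m : ℕ) [NeZero m] (f : ZMod m → ℤ) (h : TateF f) (t : (ZMod m)ˣ) :
    TateF (fun x => f ((t : ZMod m) * x)) := by
  intro u
  have h1 := h (u * t⁻¹)
  rw [← h1]
  refine Fintype.sum_equiv (t.mulLeft : Equiv.Perm (ZMod m)) _ _ fun x => ?_
  simp only [Units.mulLeft_apply]
  congr 2
  rw [← mul_assoc, ← Units.val_mul, inv_mul_cancel_right]

lemma S1_tate_lin (m : ℕ) [NeZero m] (f g : ZMod m → ℤ) (hf : TateF f) (hg : TateF g) (n : ℤ) :
    TateF (fun x => f x - n * g x) := by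
  intro t
  simp_rw [sub_mul, Finset.sum_sub_distrib, mul_assoc, ← Finset.mul_sum]
  rw [hf t, hg t]; ring

theorem pre_of_tate (m : ℕ) [NeZero m] (c c' : ZMod m → ℤ) (h : Pre m c)
    (hT : TateF (anti fun x => c x - c' x)) : Pre m c' := by
  constructor
  · intro t ht
    have h1 := h.1 t ht
    have h2 := S1_tate_mul m _ hT t
    have h3 := S1_tate_lin m _ _ (S1_tate_lin m _ _ h1 h2 1) hT (-1)
    have h4 : (fun x => anti (fun x => c' ((t : ZMod m) * x) - c' x) x) = fun x =>
        anti (fun x => c ((t : ZMod m) * x) - c x) x -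
          1 * (anti (fun x => c x - c' x) ((t : ZMod m) * x)) -
          -1 * anti (fun x => c x - c' x) x := by
      funext x
      simp only [anti, mul_neg]
      ring
    have h5 : anti (fun x => c' ((t : ZMod m) * x) - c' x) = fun x =>
        anti (fun x => c' ((t : ZMod m) * x) - c' x) x := rfl
    rw [h5, h4]
    exact h3
  · intro h4
    have h1 := h.2 h4
    unfold G4 at h1 ⊢
    rw [← h1]
    refine Finset.sum_congr rfl fun t _ => ?_
    congr 1
    have h2 := hT t
    rw [← sub_eq_zero, ← neg_eq_zero, neg_sub, ← Finset.sum_sub_distrib, ← h2]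
    refine Finset.sum_congr rfl fun x _ => ?_
    simp only [anti]
    ring

theorem pre_sub (m : ℕ) [NeZero m] (c e : ZMod m → ℤ) (n : ℤ) (h : Pre m c) (he : Inv m e)
    (hg : 4 ∣ m → G4 m e = 0) : Pre m (fun x => c x - n * e x) := by
  constructor
  · intro t ht
    have h1 := h.1 t ht
    have h2 : (fun x => (fun x => c x - n * e x) ((t : ZMod m) * x) -
        (fun x => c x - n * e x) x) = fun x => c ((t : ZMod m) * x) - c x := by
      funext x
      simp only
      rw [he t ht x]
      ring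
    rw [h2]
    exact h1
  · intro h4
    have h1 := h.2 h4
    have h2 := hg h4
    have h3 : G4 m (fun x => c x - n * e x) = G4 m c - n * G4 m e := by
      unfold G4
      rw [Finset.mul_sum, ← Finset.sum_sub_distrib]
      refine Finset.sum_congr rfl fun t _ => ?_
      have h5 : ∑ x, anti (fun x => c x - n * e x) x * saw m ((t : ZMod m) * x) =
          ∑ x, anti c x * saw m ((t : ZMod m) * x) - n * ∑ x, anti e x * saw m ((t : ZMod m) * x) := by
        rw [Finset.mul_sum, ← Finset.sum_sub_distrib]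
        refine Finset.sum_congr rfl fun x _ => ?_
        simp only [anti]
        ring
      rw [h5]; ring
    rw [h3, h1, h2]; ring

theorem pre_tate (m : ℕ) [NeZero m] (c : ZMod m → ℤ) (h : TateF (anti c)) : Pre m c := by
  constructor
  · intro t _
    have h1 := S1_tate_lin m _ _ (S1_tate_mul m _ h t) h 1
    have h2 : anti (fun x => c ((t : ZMod m) * x) - c x) = fun x =>
        anti c ((t : ZMod m) * x) - 1 * anti c x := by
      funext x
      simp only [anti, mul_neg]
      ring
    rw [h2]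
    exact h1
  · intro _
    unfold G4
    refine Finset.sum_eq_zero fun t _ => ?_
    rw [h t, mul_zero]

end Pool.Agent.helper76.MC
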