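import Pool.Agent.helper76.MC.N34
import Pool.Agent.helper76.MC.CD
import Pool.Agent.helper76.MC.S1
import Pool.Agent.helper17.MC.M1
import Pool.Agent.helper67.MC.M2
import Pool.Agent.helper55.MC.M3
import Pool.Agent.helper71.MC.P1
import Pool.Agent.helper71.MC.P2b
import Pool.Agent.helper81.MC.P3
import Pool.Agent.helper93.MC.Z

/-! # Project MC: the induction -/

namespace Pool.Agent.helper76.MC

open Finset Pool.Agent.helper34.DH Pool.Agent.helper76.FV Pool.Agent.helper76.LP
open Pool.Agent.helper76.UR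
open Matrix (SpecialLinearGroup)

lemma I_par_sub {G ι : Type*} [CommGroup G] (ν : ι → G) (L : List ι) : ∀ (f g : G → ℤ) (x : G),
    par ν L (fun z => f z - g z) x = par ν L f x - par ν L g x := by
  induction L with
  | nil => intro f g x; rfl
  | cons i L ih =>
    intro f g x
    simp only [par]
    rw [← ih]
    congr 1
    funext z
    ring

lemma I_mdf_sub_mul {G ι : Type*} [CommGroup G] (ν : ι → G) (L : List ι) (n : ℤ) :
    ∀ (f g : G → ℤ) (x : G),
    mdf ν L (fun z => f z - n * g z) x = mdf ν L f x - n * mdf ν L g x := by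
  induction L with
  | nil => intro f g x; rfl
  | cons i L ih =>
    intro f g x
    simp only [mdf]
    rw [← ih]
    congr 1
    funext z
    ring

lemma I_anti_sub_mul {m : ℕ} (c e : ZMod m → ℤ) (n : ℤ) (x : ZMod m) :
    anti (fun x => c x - n * e x) x = anti c x - n * anti e x := by
  unfold anti; ring

lemma I_cls_sub_mul (m : ℕ) [NeZero m] (c e : ZMod m → ℤ) (n : ℤ) :
    LP.cls m (fun x => c x - n * e x) = LP.cls m c - n • LP.cls m e := by
  unfold LP.cls
  rw [Finset.smul_sum, ← Finset.sum_sub_distrib]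
  refine Finset.sum_congr rfl fun x _ => ?_
  rw [sub_smul, mul_smul]

lemma I_hh_mem : hh ∈ MG' :=
  (le_sup_left : MG ≤ MG') (AddSubgroup.subset_closure (Or.inr rfl))

/-- the result of one stage -/
def OutM (m : ℕ) [NeZero m] (D : ℕ) (c : ZMod m → ℤ) : Prop :=
  ∃ c' : ZMod m → ℤ, Pre m c' ∧ (∀ x, anti c' x ≠ 0 → addOrderOf x < D) ∧
    LP.cls m c - LP.cls m c' ∈ MG'

lemma I_of_ndec (m : ℕ) [NeZero m] (D : ℕ) [NeZero D] (hD : D ∣ m) (c : ZMod m → ℤ)
    (hmax : ∀ x, anti c x ≠ 0 → addOrderOf x ≤ D) (hP : Pre m c)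
    (hdec : NDec D (fun z => anti c (LP.emb D m (z : ZMod D)))) : OutM m D c := by
  obtain ⟨c', h1, h2, j, hj⟩ := step1 m D hD c hmax hdec
  refine ⟨c', pre_of_tate m c c' hP h1, h2, ?_⟩
  rw [hj]
  have : LP.cls m c - (LP.cls m c + j • hh) = -(j • hh) := by abel
  rw [this]
  exact MG'.neg_mem (MG'.zsmul_mem I_hh_mem j)

/-- subtraction of a multiple of a pattern -/
lemma I_of_sub (m : ℕ) [NeZero m] (D : ℕ) (c e : ZMod m → ℤ) (n : ℤ) (he : LP.cls m e ∈ MG')
    (h : OutM m D (fun x => c x - n * e x)) : OutM m D c := by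
  obtain ⟨c', h1, h2, h3⟩ := h
  refine ⟨c', h1, h2, ?_⟩
  rw [I_cls_sub_mul] at h3
  have h4 : LP.cls m c - LP.cls m c' = (LP.cls m c - n • LP.cls m e - LP.cls m c') +
      n • LP.cls m e := by abel
  rw [h4]
  exact MG'.add_mem h3 (MG'.zsmul_mem he n)

lemma I_three {m D : ℕ} (h : Three m) (hD : D ∣ m) : Three D :=
  fun p hp hpD => h p hp (hpD.trans hD)

/-- the case `D` squarefree apart from a factor `4`, `D ≠ 1, 4` -/
lemma I_lform (m : ℕ) [NeZero m] (h3 : Three m) (D : ℕ) [NeZero D] (hDm : D ∣ m) (hL : Lform D)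
    (h1 : D ≠ 1) (h4 : D ≠ 4) (c : ZMod m → ℤ)
    (hmax : ∀ x, anti c x ≠ 0 → addOrderOf x ≤ D) (hP : Pre m c) : OutM m D c := by
  have hm0 : 0 < m := Nat.pos_of_ne_zero (NeZero.ne m)
  have hD0 : 0 < D := Nat.pos_of_ne_zero (NeZero.ne D)
  have h3D := I_three h3 hDm
  have hne : D.primeFactors.toList ≠ [] := by
    intro h
    rw [Finset.toList_eq_nil, Nat.primeFactors_eq_empty] at h
    rcases h with h | h
    · omega
    · exact h1 h
  obtain ⟨L, q, hLq⟩ : ∃ (L : List ℕ) (q : ℕ), L ++ [q] = D.primeFactors.toList :=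
    ⟨D.primeFactors.toList.dropLast, D.primeFactors.toList.getLast hne,
      List.dropLast_append_getLast hne⟩
  have hLn : (L ++ [q]).Nodup := by rw [hLq]; exact Finset.nodup_toList _
  have hLt : (L ++ [q]).toFinset = D.primeFactors := by rw [hLq]; exact Finset.toList_toFinset _
  obtain ⟨hI, htop, ν, hν, hprod⟩ := nu_exists D hL (L ++ [q]) hLn hLt
  have hmem : ∀ p, p ∈ L ++ [q] ↔ p ∈ D.primeFactors := by
    intro p; rw [← hLt, List.mem_toFinset]
  -- oddness and MDv for all functions with `Pre`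
  have hodd : ∀ c : ZMod m → ℤ, ∀ x : (ZMod D)ˣ, anti c (LP.emb D m ((-x : (ZMod D)ˣ) : ZMod D)) =
      - anti c (LP.emb D m (x : ZMod D)) := by
    intro c x
    rw [Units.val_neg, emb_neg hDm, anti_odd]
  have hodd' : ∀ c : ZMod m → ℤ, ∀ x : (ZMod D)ˣ,
      anti c (LP.emb D m (((((L ++ [q]).map ν).prod * x : (ZMod D)ˣ)) : ZMod D)) =
      - anti c (LP.emb D m (x : ZMod D)) := by
    intro c x
    rw [hprod, neg_one_mul]
    exact hodd c x
  have hmd : ∀ c : ZMod m → ℤ, Pre m c → (∀ x, anti c x ≠ 0 → addOrderOf x ≤ D) →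
      mdf ν (L ++ [q]) (fun z : (ZMod D)ˣ => anti c (LP.emb D m (z : ZMod D))) 1 = 0 →
      MDv (Gam D) (L ++ [q]) (fun z : (ZMod D)ˣ => anti c (LP.emb D m (z : ZMod D))) := by
    intro c hP hmax h0
    apply mdv_of_sq (Gam D) (L ++ [q]) hLn ν (fun i hi => ⟨(hν i hi).1, (hν i hi).2.1⟩) ?_ htop _
      ?_ h0
    · intro i hi γ hγ
      exact gam_sq D hL h3D i ((hmem i).1 hi) (ν i) (hν i hi).1 (hν i hi).2.1 (hν i hi).2.2 γ hγ
    · intro w
      obtain ⟨t, ht, htw⟩ := lift_sq D m hDm w
      have h := mdv_pre m D hDm c hP.1 hmax (L ++ [q]) hLt t (Or.inl ht)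
      rw [htw] at h
      exact h
  -- the list of odd primes
  set R : List ℕ := (D.primeFactors.erase 2).toList with hRdef
  have hRn : R.Nodup := Finset.nodup_toList _
  have hR : ∀ p, p ∈ R ↔ p ∈ D.primeFactors ∧ p ≠ 2 := by
    intro p
    rw [hRdef, Finset.mem_toList, Finset.mem_erase]
    exact and_comm
  have hR3 : ∀ p ∈ R, p.Prime ∧ p % 4 = 3 ∧ p ∣ D := by
    intro p hp
    obtain ⟨h5, h6⟩ := (hR p).1 hp
    have h7 := Nat.prime_of_mem_primeFactors h5
    have h8 := Nat.dvd_of_mem_primeFactors h5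
    rcases h3D p h7 h8 with h9 | h9
    · exact absurd h9 h6
    · exact ⟨h7, h9, h8⟩
  have h24 : 2 ∈ D.primeFactors ↔ 4 ∣ D := by
    rw [Nat.mem_primeFactors]
    constructor
    · rintro ⟨-, h5, -⟩
      have := hL.1
      omega
    · intro h5
      exact ⟨Nat.prime_two, (by norm_num : 2 ∣ 4).trans h5, hD0.ne'⟩
  have hRlen : R.length + (if decide (4 ∣ D) = true then 1 else 0) = (L ++ [q]).length := by
    have h5 : (L ++ [q]).length = D.primeFactors.card := by
      rw [← hLt, List.toFinset_card_of_nodup hLn]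
    rw [h5, hRdef, Finset.length_toList]
    by_cases h6 : 4 ∣ D
    · rw [Finset.card_erase_of_mem (h24.2 h6)]
      have h7 : 0 < D.primeFactors.card := Finset.card_pos.2 ⟨2, h24.2 h6⟩
      simp only [h6, decide_true, if_true]
      omega
    · rw [Finset.erase_eq_of_notMem (fun h7 => h6 (h24.1 h7))]
      simp [h6]
  have hfour : decide (4 ∣ D) = true → 4 ∣ m := fun h => (of_decide_eq_true h).trans hDm
  -- general facts on patterns
  have hpat : ∀ R' : List ℕ, (∀ p ∈ R', p.Prime ∧ p % 4 = 3 ∧ p ∣ D) →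
      Even (R'.length + (if decide (4 ∣ D) = true then 1 else 0)) →
      (4 ∣ m → G4 m (fun x => ((pat m (decide (4 ∣ D)) R' x : ℕ) : ℤ)) = 0) →
      LP.cls m (fun x => ((pat m (decide (4 ∣ D)) R' x : ℕ) : ℤ)) ∈ MG' ∧
      ∀ n : ℤ, Pre m (fun x => c x - n * ((pat m (decide (4 ∣ D)) R' x : ℕ) : ℤ)) ∧
        ∀ x, anti (fun x => c x - n * ((pat m (decide (4 ∣ D)) R' x : ℕ) : ℤ)) x ≠ 0 →
          addOrderOf x ≤ D := by
    intro R' hR' hev hG
    have hR'm : ∀ p ∈ R', p.Prime ∧ p % 4 = 3 ∧ p ∣ m :=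
      fun p hp => ⟨(hR' p hp).1, (hR' p hp).2.1, (hR' p hp).2.2.trans hDm⟩
    refine ⟨?_, fun n => ⟨?_, ?_⟩⟩
    · apply cf_mem
      have h5 := pat_cf m (decide (4 ∣ D)) hfour R' hR'm
      rwa [hev.neg_one_pow] at h5
    · apply pre_sub m c _ n hP ?_ hG
      have h5 := pat_inv m (decide (4 ∣ D)) hfour R'
        (fun p hp => ⟨(hR'm p hp).1, Nat.odd_iff.2 (by have := (hR'm p hp).2.1; omega),
          (hR'm p hp).2.2⟩)
      intro t ht x
      simp only
      rw [h5 t ht x]
    · intro x hx
      rw [I_anti_sub_mul] at hx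
      by_cases h5 : anti c x = 0
      · have h6 : anti (fun x => ((pat m (decide (4 ∣ D)) R' x : ℕ) : ℤ)) x ≠ 0 := by
          intro h6
          rw [h5, h6] at hx
          simp at hx
        have h7 : pat m (decide (4 ∣ D)) R' x ≠ 0 ∨ pat m (decide (4 ∣ D)) R' (-x) ≠ 0 := by
          by_contra h8
          push Not at h8
          apply h6
          simp only [anti, h8.1, h8.2]
          simp
        apply Nat.le_of_dvd hD0
        rcases h7 with h7 | h7
        · exact pat_supp m D hDm (decide (4 ∣ D)) (fun h => of_decide_eq_true h) R'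
            (fun p hp => ⟨(hR' p hp).1, (hR' p hp).2.2⟩) x h7
        · have h8 := pat_supp m D hDm (decide (4 ∣ D)) (fun h => of_decide_eq_true h) R'
            (fun p hp => ⟨(hR' p hp).1, (hR' p hp).2.2⟩) (-x) h7
          rwa [addOrderOf_neg] at h8
      · exact hmax x h5
  rcases Nat.even_or_odd (L ++ [q]).length with hk | hk
  · -- even number of primes
    have hmd0 : ∀ c : ZMod m → ℤ, Pre m c → (∀ x, anti c x ≠ 0 → addOrderOf x ≤ D) →
        MDv (Gam D) (L ++ [q]) (fun z : (ZMod D)ˣ => anti c (LP.emb D m (z : ZMod D))) := by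
      intro c hP hmax
      apply hmd c hP hmax
      exact mdf_even (L ++ [q]) ν (fun i hi => (hν i hi).2.1) _ (hodd' c) hk
    rcases Int.even_or_odd (par ν L (fun z : (ZMod D)ˣ => anti c (LP.emb D m (z : ZMod D))) 1)
      with hp | hp
    · exact I_of_ndec m D hDm c hmax hP (ndec_gen D hL L q hLn hLt ν hν hprod _ (hodd c)
        (hmd0 c hP hmax) fun _ => hp)
    · have hRne : R ≠ [] := by
        intro h5
        rw [h5] at hRlen
        simp only [List.length_nil, zero_add] at hRlen
        have h6 : (L ++ [q]).length = L.length + 1 := by simp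
        rw [h6] at hRlen hk
        split_ifs at hRlen
        · have h7 : L.length = 0 := by omega
          rw [h7] at hk
          exact absurd hk (by decide)
      have hG : 4 ∣ m → G4 m (fun x => ((pat m (decide (4 ∣ D)) R x : ℕ) : ℤ)) = 0 := by
        intro h4m
        by_cases h4D : 4 ∣ D
        · simp only [h4D, decide_true]
          obtain ⟨p, R', hR'⟩ := List.exists_cons_of_ne_nil hRne
          have h5 := pat_G4_true m h4m p [] R' (by
            rw [hR'] at hRn
            simpa using (List.nodup_cons.1 hRn).1) (by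
            intro r hr
            have h6 := hR3 r (by rw [hR']; simpa using hr)
            exact ⟨h6.1, h6.2.1, h6.2.2.trans hDm⟩)
          rw [hR']
          simpa using h5
        · simp only [h4D, decide_false]
          exact pat_G4_false m h4m R fun r hr => by
            have h6 := hR3 r hr
            exact ⟨h6.1, Nat.odd_iff.2 (by have := h6.2.1; omega), h6.2.2.trans hDm⟩
      obtain ⟨h5, h6⟩ := hpat R hR3 (by rw [hRlen]; exact hk) hG
      apply I_of_sub m D c _ 1 h5
      obtain ⟨h7, h8⟩ := h6 1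
      apply I_of_ndec m D hDm _ h8 h7
      apply ndec_gen D hL L q hLn hLt ν hν hprod _ (hodd _) (hmd0 _ h7 h8)
      intro _
      have h9 := pat_par m D hDm hL h3D L q hLn hLt ν hν hprod hk R hRn hR
      have h10 : (fun z : (ZMod D)ˣ => anti (fun x => c x - 1 *
          ((pat m (decide (4 ∣ D)) R x : ℕ) : ℤ)) (LP.emb D m (z : ZMod D))) =
          fun z : (ZMod D)ˣ => anti c (LP.emb D m (z : ZMod D)) -
            anti (fun x => ((pat m (decide (4 ∣ D)) R x : ℕ) : ℤ)) (LP.emb D m (z : ZMod D)) := by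
        funext z
        rw [I_anti_sub_mul, one_mul]
      rw [h10, I_par_sub]
      exact hp.sub_odd h9
  · -- odd number of primes
    have hRne : R ≠ [] := by
      intro h5
      rw [h5] at hRlen
      simp only [List.length_nil, zero_add] at hRlen
      have h6 : (L ++ [q]).length = L.length + 1 := by simp
      have h5' : D.primeFactors.erase 2 = ∅ := by
        rw [hRdef] at h5
        exact Finset.toList_eq_nil.1 h5
      by_cases h4D : 4 ∣ D
      · -- then `D = 4`
        apply h4
        have h7 : D.primeFactors = {2} := by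
          apply Finset.Subset.antisymm
          · intro p hp
            by_contra h8
            have : p ∈ D.primeFactors.erase 2 := Finset.mem_erase.2
              ⟨fun h9 => h8 (Finset.mem_singleton.2 h9), hp⟩
            rw [h5'] at this
            simp at this
          · intro p hp
            rw [Finset.mem_singleton.1 hp]
            exact h24.2 h4D
        have h8 := (eq_prod_lam D hL.1 ⟨hL.2.1, hL.2.2⟩).1
        rw [h7] at h8
        simpa using h8
      · rw [if_neg (by simpa using h4D), h6] at hRlen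
        omega
    obtain ⟨p₀, R₁, hR₁⟩ := List.exists_cons_of_ne_nil hRne
    have hp₀ : p₀ ∈ R := by rw [hR₁]; simp
    have hRlen' : Even ((p₀ :: R).length + (if decide (4 ∣ D) = true then 1 else 0)) := by
      have h5 : (p₀ :: R).length = R.length + 1 := by simp
      rw [h5, add_right_comm, hRlen]
      exact hk.add_one
    have hG : 4 ∣ m → G4 m (fun x => ((pat m (decide (4 ∣ D)) (p₀ :: R) x : ℕ) : ℤ)) = 0 := by
      intro h4m
      by_cases h4D : 4 ∣ D
      · simp only [h4D, decide_true]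
        -- a second prime
        have h5 : R₁ ≠ [] := by
          intro h6
          rw [hR₁, h6] at hRlen'
          simp only [h4D, decide_true, if_true, List.length_cons, List.length_nil] at hRlen'
          exact absurd hRlen' (by decide)
        obtain ⟨p, R₂, hR₂⟩ := List.exists_cons_of_ne_nil h5
        have h6 := pat_G4_true m h4m p [p₀, p₀] R₂ (by
          rw [hR₁, hR₂] at hRn
          rw [List.nodup_cons, List.nodup_cons] at hRn
          obtain ⟨h7, h8, -⟩ := hRn
          intro h9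
          simp only [List.mem_cons, List.cons_append, List.nil_append] at h7 h9
          push Not at h7
          rcases h9 with h9 | h9 | h9
          · exact h7.1 h9.symm
          · exact h7.1 h9.symm
          · exact h8 h9) (by
          intro r hr
          have h7 : r ∈ R := by
            rw [hR₁, hR₂]
            simp only [List.mem_cons, List.cons_append, List.nil_append] at hr ⊢
            tauto
          have h6 := hR3 r h7
          exact ⟨h6.1, h6.2.1, h6.2.2.trans hDm⟩)
        rw [hR₁, hR₂]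
        simpa using h6
      · simp only [h4D, decide_false]
        exact pat_G4_false m h4m (p₀ :: R) fun r hr => by
          have h7 : r ∈ R := by
            rcases List.mem_cons.1 hr with h8 | h8
            · rw [h8]; exact hp₀
            · exact h8
          have h6 := hR3 r h7
          exact ⟨h6.1, Nat.odd_iff.2 (by have := h6.2.1; omega), h6.2.2.trans hDm⟩
    have hR3' : ∀ p ∈ p₀ :: R, p.Prime ∧ p % 4 = 3 ∧ p ∣ D := by
      intro r hr
      rcases List.mem_cons.1 hr with h8 | h8
      · rw [h8]; exact hR3 p₀ hp₀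
      · exact hR3 r h8
    obtain ⟨h5, h6⟩ := hpat (p₀ :: R) hR3' hRlen' hG
    obtain ⟨n, hn⟩ := mdf_odd (L ++ [q]) ν (fun i hi => (hν i hi).2.1)
      (fun z : (ZMod D)ˣ => anti c (LP.emb D m (z : ZMod D))) (hodd' c) hk
    have h9 := pat_mdf m D hDm hL h3D (L ++ [q]) hLn hLt ν hν hprod hk R p₀ hp₀ hRn hR
    obtain ⟨n', hn'⟩ : ∃ n' : ℤ, mdf ν (L ++ [q])
        (fun z : (ZMod D)ˣ => anti c (LP.emb D m (z : ZMod D))) 1 - n' *
        mdf ν (L ++ [q]) (fun z : (ZMod D)ˣ => anti (fun x => ((pat m (decide (4 ∣ D)) (p₀ :: R) x :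
          ℕ) : ℤ)) (LP.emb D m (z : ZMod D))) 1 = 0 := by
      rcases h9 with h9 | h9
      · exact ⟨n, by rw [h9, hn]; ring⟩
      · exact ⟨-n, by rw [h9, hn]; ring⟩
    apply I_of_sub m D c _ n' h5
    obtain ⟨h7, h8⟩ := h6 n'
    have h10 : (fun z : (ZMod D)ˣ => anti (fun x => c x - n' *
        ((pat m (decide (4 ∣ D)) (p₀ :: R) x : ℕ) : ℤ)) (LP.emb D m (z : ZMod D))) =
        fun z : (ZMod D)ˣ => anti c (LP.emb D m (z : ZMod D)) - n' *
          anti (fun x => ((pat m (decide (4 ∣ D)) (p₀ :: R) x : ℕ) : ℤ))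
            (LP.emb D m (z : ZMod D)) := by
      funext z
      rw [I_anti_sub_mul]
    apply I_of_ndec m D hDm _ h8 h7
    refine ndec_gen D hL L q hLn hLt ν hν hprod _ (hodd _) (hmd _ h7 h8 ?_) ?_
    · rw [h10, I_mdf_sub_mul]
      exact hn'
    · intro h11
      exact absurd hk (Nat.not_odd_iff_even.2 h11)

/-- one stage of the induction -/
theorem I_stage (m : ℕ) [NeZero m] (h3 : Three m) (D : ℕ) [NeZero D] (hDm : D ∣ m)
    (c : ZMod m → ℤ) (hmax : ∀ x, anti c x ≠ 0 → addOrderOf x ≤ D) (hP : Pre m c) :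
    OutM m D c := by
  have hodd : ∀ x : (ZMod D)ˣ, anti c (LP.emb D m ((-x : (ZMod D)ˣ) : ZMod D)) =
      - anti c (LP.emb D m (x : ZMod D)) := by
    intro x
    rw [Units.val_neg, emb_neg hDm, anti_odd]
  have hz : LP.cls m c - LP.cls m c ∈ MG' := by rw [sub_self]; exact MG'.zero_mem
  by_cases hD4 : D % 4 = 2
  · exact I_of_ndec m D hDm c hmax hP (ndec_of_dec D _ (dec_two D hD4 _ hodd))
  by_cases hL : Lform D
  · by_cases h1 : D = 1
    · refine ⟨c, hP, fun x hx => ?_, hz⟩
      have h5 := hmax x hx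
      rw [h1] at h5
      have h6 := addOrderOf_pos x
      have h7 : addOrderOf x = 1 := by omega
      rw [AddMonoid.addOrderOf_eq_one_iff] at h7
      rw [h7] at hx
      exact absurd (by unfold anti; simp) hx
    by_cases h4 : D = 4
    · refine ⟨c, hP, fun x hx => ?_, hz⟩
      have h5 := hmax x hx
      apply lt_of_le_of_ne h5
      intro h6
      rw [h4] at h6 hDm hmax
      exact hx (G4_four m hDm c hmax (hP.2 hDm) x h6)
    exact I_lform m h3 D hDm hL h1 h4 c hmax hP
  · set L := D.primeFactors.toList with hLdef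
    have hLn : L.Nodup := Finset.nodup_toList _
    have hLt : L.toFinset = D.primeFactors := Finset.toList_toFinset _
    have hneg : (-1 : (ZMod D)ˣ) ∉ Pl (Gam D) L := by
      intro h
      have h5 := sqf_of_neg_one D L hLt h
      exact hL ⟨hD4, h5.1, h5.2⟩
    obtain ⟨p, hp, hlift⟩ := gam_lift D m hDm hD4 hL
    have hmd : MDv (Gam D) L (fun z : (ZMod D)ˣ => anti c (LP.emb D m (z : ZMod D))) := by
      apply mdv_of_inv (Gam D) L hLn p (by rw [← List.mem_toFinset, hLt]; exact hp)
      intro γ hγ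
      obtain ⟨t, ht, htγ⟩ := hlift γ hγ
      have h := mdv_pre m D hDm c hP.1 hmax L hLt t ht
      rw [htγ] at h
      exact h
    exact I_of_ndec m D hDm c hmax hP (ndec_half D L hLn hLt hneg _ hodd hmd)

theorem I_ind (m : ℕ) [NeZero m] (h3 : Three m) :
    ∀ (D : ℕ) (c : ZMod m → ℤ), Pre m c → (∀ x, anti c x ≠ 0 → addOrderOf x ≤ D) →
      LP.cls m c ∈ MG' := by
  intro D
  induction D with
  | zero =>
    intro c _ h
    obtain ⟨j, hj⟩ := cls_even m c (by
      intro x
      by_contra hx
      have := h x hx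
      have h2 := addOrderOf_pos x
      omega)
    rw [hj]
    exact MG'.zsmul_mem I_hh_mem j
  | succ D ih =>
    intro c hP h
    by_cases hD : (D + 1) ∣ m
    · have : NeZero (D + 1) := ⟨Nat.succ_ne_zero D⟩
      obtain ⟨c', h1, h2, h3'⟩ := I_stage m h3 (D + 1) hD c h hP
      have h4 := ih c' h1 (fun x hx => Nat.lt_succ_iff.1 (h2 x hx))
      have h5 := MG'.add_mem h3' h4
      rwa [sub_add_cancel] at h5
    · apply ih c hP
      intro x hx
      have h1 := h x hx
      have h2 : addOrderOf x ≠ D + 1 := fun h3 => hD (h3 ▸ addOrderOf_dvd' x)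
      omega

theorem main_mod' (m : ℕ) [NeZero m] (h3 : Three m) (c : ZMod m → ℤ) (h : Pre m c) :
    LP.cls m c ∈ MG' :=
  I_ind m h3 m c h (fun x _ => Nat.le_of_dvd (Nat.pos_of_ne_zero (NeZero.ne m))
    (addOrderOf_dvd' x))

end Pool.Agent.helper76.MC
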